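import Pool.Agent.W_92892c_h14r.CompN

/-!
The leading-term formula of Birch and Swinnerton-Dyer up to a factor, for an elliptic curve over `ℚ` and
its quadratic twists, over `ℚ` and over multiquadratic fields: the formula up to a factor
`(log conductor)^(o(1))` determines the orders of vanishing, the asymptotic formula (degree of the field
tending to infinity) implies the exact one, and the formula up to a bounded factor means that the
logarithms of the quotients over `ℚ` are the Fourier coefficients of a bounded function.  Nothing is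
assumed on ranks or orders of vanishing.
-/

open Filter Topology MeasureTheory

namespace Pool.Agent.Results.MP_92892c_nt.ApproximateFormula

/-- Number of points over `F_p` of the projective Weierstrass cubic `W` mod `p`. -/
noncomputable def nPoints (W : WeierstrassCurve ℤ) (p : ℕ) : ℕ :=
  1 + Nat.card {P : ZMod p × ZMod p //
    (W.map (Int.castRingHom (ZMod p))).toAffine.Equation P.1 P.2}

/-- `a_p = p + 1 - #W(F_p)`. -/
noncomputable def aCoeff (W : WeierstrassCurve ℤ) (p : ℕ) : ℤ := (p : ℤ) + 1 - nPoints W p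

/-- `p` if `p` does not divide the discriminant of `W`, else `0`. -/
noncomputable def eCoeff (W : WeierstrassCurve ℤ) (p : ℕ) : ℤ :=
  if (p : ℤ) ∣ W.Δ then 0 else (p : ℤ)

/-- The Euler polynomial `1 - a_p p^(-s) + e_p p^(-2s)`. -/
noncomputable def eulerPoly (W : WeierstrassCurve ℤ) (p : ℕ) (s : ℂ) : ℂ :=
  1 - (aCoeff W p : ℂ) * (p : ℂ) ^ (-s) + (eCoeff W p : ℂ) * (p : ℂ) ^ (-2 * s)

/-- `L` is the Euler product of `W` for `Re s > 3/2`. -/
def EulerProduct (W : WeierstrassCurve ℤ) (L : ℂ → ℂ) : Prop :=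
  ∀ s : ℂ, 3 / 2 < s.re → Tendsto (fun N : ℕ =>
    ∏ p ∈ (Finset.range N).filter Nat.Prime, (eulerPoly W p s)⁻¹) atTop (𝓝 (L s))

/-- The squarefree integers; if `real`, the positive ones. -/
def Twists (real : Bool) : Set ℤ := {d | Squarefree d ∧ (real = true → 0 < d)}

/-- The twist `E_d : y² = x³ + a₂ d x² + a₄ d² x + a₆ d³` of `E : y² = x³ + a₂ x² + a₄ x + a₆`. -/
def gcurve (a2 a4 a6 d : ℤ) : WeierstrassCurve ℤ := ⟨0, d * a2, 0, d ^ 2 * a4, d ^ 3 * a6⟩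

/-- The group of points of `W` with coordinates in the field `K`. -/
abbrev Points (W : WeierstrassCurve ℤ) (K : Type) [Field K] : Type :=
  (W.map (Int.castRingHom K)).toAffine.Point

/-- The rank of `E_d(ℚ)`. -/
noncomputable def rk (a2 a4 a6 d : ℤ) : ℕ := Module.finrank ℤ (Points (gcurve a2 a4 a6 d) ℚ)

/-- `C` is a coset of a finite group of square classes of integers. -/
structure IsCoset (C : Finset ℤ) : Prop where
  nonempty : C.Nonempty
  closed : ∀ x ∈ C, ∀ y ∈ C, ∀ z ∈ C, ∃ w ∈ C, IsSquare (x * y * z * w)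

/-- The multiquadratic field generated by the complex numbers `x` with `x² = d e`, `e ∈ C`. -/
noncomputable def mqField (d : ℤ) (C : Finset ℤ) : IntermediateField ℚ ℂ :=
  IntermediateField.adjoin ℚ {x : ℂ | ∃ e ∈ C, x ^ 2 = (d * e : ℤ)}

/-- The rank of `E_d` over the field `K = ℚ(√(d e) : e ∈ C)`. -/
noncomputable def rkK (a2 a4 a6 d : ℤ) (C : Finset ℤ) : ℕ :=
  Module.finrank ℤ (Points (gcurve a2 a4 a6 d) (mqField d C))

/-- The quotient of the two sides of the leading-term formula for `E_d` over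
`K = ℚ(√(d e) : e ∈ C)`: the Taylor coefficient at `1`, of order the rank of `E_d(K)`, of
`∏_{e ∈ C} L_e` (this is `L(E_d/K, s)`), divided by `∏ c_e`. -/
noncomputable def quotK (a2 a4 a6 : ℤ) (L : ℤ → ℂ → ℂ) (c : ℤ → ℂ) (d : ℤ) (C : Finset ℤ) : ℂ :=
  iteratedDeriv (rkK a2 a4 a6 d C) (fun s => ∏ e ∈ C, L e s) 1 /
    ((rkK a2 a4 a6 d C).factorial : ℂ) / ∏ e ∈ C, c e

/-- Functional equation near the point `1`: `Λ(1 - w) = ε Λ(1 + w)`, `Λ(s) = A^s γ(s) L(s)`. -/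
def FunEqNear (γ L : ℂ → ℂ) (A : ℝ) : Prop :=
  ∃ ε : ℂ, ∀ᶠ w in 𝓝 (0 : ℂ), (A : ℂ) ^ (1 - w) * γ (1 - w) * L (1 - w) =
    ε * ((A : ℂ) ^ (1 + w) * γ (1 + w) * L (1 + w))

/-- Functions `L_d`, analytic at `1`, with functional equations with one factor `γ` and with numbers
`A_d → ∞`, and constants `c_d ≠ 0`. -/
structure TwistFamily (real : Bool) (γ : ℂ → ℂ) (L : ℤ → ℂ → ℂ) (A : ℤ → ℝ) (c : ℤ → ℂ) : Prop where
  gamma_an : AnalyticAt ℂ γ 1
  gamma_ne : γ 1 ≠ 0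
  an : ∀ d ∈ Twists real, AnalyticAt ℂ (L d) 1
  pos : ∀ d ∈ Twists real, 0 < A d
  fe : ∀ d ∈ Twists real, FunEqNear γ (L d) (A d)
  fin : ∀ B : ℝ, {d ∈ Twists real | A d ≤ B}.Finite
  ne : ∀ d ∈ Twists real, c d ≠ 0

/-- `A_d = A_0 d` for all positive squarefree `d` congruent to `1` modulo some `M`. -/
def Conductors (A : ℤ → ℝ) : Prop :=
  ∃ M : ℕ, 1 ≤ M ∧ ∃ A0 : ℝ, 0 < A0 ∧ ∀ d : ℕ, Squarefree d → d ≡ 1 [MOD M] → A d = A0 * d

/-- `1 + ∑_{e ∈ C} |log A_e|`. -/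
noncomputable def size (A : ℤ → ℝ) (C : Finset ℤ) : ℝ := 1 + ∑ e ∈ C, |Real.log (A e)|

/-- `q d C ≤ K (size C)^α` with one `K`, for all cosets `C` with at most `n` elements and `d ∈ C`
(the fields of degree at most `n`). -/
def AtMost (real : Bool) (q : ℤ → Finset ℤ → ℝ) (A : ℤ → ℝ) (n : ℕ) (α : ℝ) : Prop :=
  ∃ K : ℝ, ∀ C : Finset ℤ, ↑C ⊆ Twists real → IsCoset C → C.card ≤ n → ∀ d ∈ C,
    q d C ≤ K * size A C ^ α

/-- `K (size C)^(-α) ≤ q d C` with one `K > 0`, for all cosets `C` with at most `n` elements and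
`d ∈ C`. -/
def AtLeast (real : Bool) (q : ℤ → Finset ℤ → ℝ) (A : ℤ → ℝ) (n : ℕ) (α : ℝ) : Prop :=
  ∃ K : ℝ, 0 < K ∧ ∀ C : Finset ℤ, ↑C ⊆ Twists real → IsCoset C → C.card ≤ n → ∀ d ∈ C,
    K * size A C ^ (-α) ≤ q d C

/-- For every `d` some exponent `α < 1` and some `K` with `q d C ≤ K (size C)^α`, for all cosets `C`
containing `d` with at most `m d` elements. -/
def SubLog (real : Bool) (m : ℤ → ℕ) (q : ℤ → Finset ℤ → ℝ) (A : ℤ → ℝ) : Prop :=
  ∀ d ∈ Twists real, ∃ α : ℝ, α < 1 ∧ ∃ K : ℝ, ∀ C : Finset ℤ, ↑C ⊆ Twists real → IsCoset C →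
    d ∈ C → C.card ≤ m d → q d C ≤ K * size A C ^ α

/-- `B⁻¹ ≤ q ≤ B` over all multiquadratic fields. -/
def Bounded (real : Bool) (q : ℤ → Finset ℤ → ℝ) (B : ℝ) : Prop :=
  ∀ C : Finset ℤ, ↑C ⊆ Twists real → IsCoset C → ∀ d ∈ C, B⁻¹ ≤ q d C ∧ q d C ≤ B

/-- The order of vanishing of `L_d` at `1` is `r_d`, for all `d`. -/
def OrderIsRank (real : Bool) (r : ℤ → ℕ) (L : ℤ → ℂ → ℂ) : Prop :=
  ∀ d ∈ Twists real, analyticOrderAt (L d) 1 = r d

/-- `true ↦ 1`, `false ↦ -1`. -/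
def sign (b : Bool) : ℝ := if b then 1 else -1

/-- The character of the squarefree integer `d` on sequences of signs: the product of the signs
`σ_p`, `p ∣ d`, times `σ_0` if `d < 0`. -/
def char (d : ℤ) (σ : ℕ → Bool) : ℝ :=
  (if d < 0 then sign (σ 0) else 1) * ∏ p ∈ d.natAbs.primeFactors, sign (σ p)

/-- A fair coin. -/
noncomputable def coin : Measure Bool :=
  (2⁻¹ : ENNReal) • (Measure.dirac true + Measure.dirac false)

/-- Independent fair signs. -/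
noncomputable def coins : Measure (ℕ → Bool) := Measure.infinitePi fun _ => coin

/-- The assertions, for `r_d` the ranks, `q d C` the absolute values of the quotients. -/
structure Assertions (n : ℕ) (real : Bool) (r : ℤ → ℕ) (q : ℤ → Finset ℤ → ℝ) (L : ℤ → ℂ → ℂ)
    (A : ℤ → ℝ) : Prop where
  /-- Over fields of degree at most `n`: finitely many exceptions of bounded rank. -/
  few : (∀ ε : ℝ, 0 < ε → AtLeast real q A 1 ε) → SubLog real (fun _ => n) q A → ∀ M : ℕ,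
    {d ∈ Twists real | r d ≤ M ∧ analyticOrderAt (L d) 1 ≠ r d}.Finite
  /-- The rank part for all twists from one-sided bounds. -/
  rank : (∀ ε : ℝ, 0 < ε → AtLeast real q A 1 ε) →
    SubLog real (fun d => max n (2 ^ r d)) q A → OrderIsRank real r L
  /-- The formula up to a factor `(size)^(o(1))` over the fields of each degree. -/
  degrees : List.TFAE [
      OrderIsRank real r L ∧ ∀ ε : ℝ, 0 < ε → AtMost real q A 1 ε ∧ AtLeast real q A 1 ε,
      ∀ (m : ℕ) (ε : ℝ), 0 < ε → AtMost real q A m ε ∧ AtLeast real q A m ε,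
      (∀ ε : ℝ, 0 < ε → AtMost real q A 1 ε ∧ AtLeast real q A 1 ε) ∧
        SubLog real (fun d => max n (2 ^ r d)) q A]
  /-- The asymptotic formula implies the exact one. -/
  asymptotic : (OrderIsRank real r L ∧ ∀ d ∈ Twists real, q d {d} = 1) ↔
      (∀ ε : ℝ, 0 < ε → AtLeast real q A 1 ε) ∧
      SubLog real (fun d => max n (2 ^ r d)) q A ∧
      ∀ ε : ℝ, 0 < ε → ∃ j : ℕ, ∀ C : Finset ℤ, ↑C ⊆ Twists real → IsCoset C →
        C.card = 2 ^ j → ∀ d ∈ C, |q d C - 1| ≤ ε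
  /-- An error over the fields of one degree gives an error over `ℚ`. -/
  descent : OrderIsRank real r L → ∀ (j : ℕ) (ε : ℝ),
    (∀ C : Finset ℤ, ↑C ⊆ Twists real → IsCoset C → C.card = 2 ^ j → ∀ d ∈ C,
      |Real.log (q d C)| ≤ ε) → ∀ C : Finset ℤ, ↑C ⊆ Twists real → IsCoset C →
      C.card = 2 ^ (j + 1) → ∑ e ∈ C, (Real.log (q e {e})) ^ 2 ≤ 4 * ε ^ 2
  /-- The formula up to a bounded factor over all multiquadratic fields. -/
  bounded : (∃ B : ℝ, 0 < B ∧ Bounded real q B) ↔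
      OrderIsRank real r L ∧ ∃ Φ : (ℕ → Bool) → ℝ, Measurable Φ ∧ (∃ M : ℝ, ∀ σ, |Φ σ| ≤ M) ∧
        ∀ d ∈ Twists real, Real.log (q d {d}) = ∫ σ, Φ σ * char d σ ∂coins
  /-- The square sum. -/
  squares : ∀ B : ℝ, 0 < B → Bounded real q B → ∀ T : Finset ℤ, ↑T ⊆ Twists real →
    ∑ d ∈ T, (Real.log (q d {d})) ^ 2 ≤ 4 * (Real.log B) ^ 2

theorem coset_iff (C : Finset ℤ) : MQV.IsCoset C ↔ IsCoset C :=
  ⟨fun h => ⟨h.1, h.2⟩, fun h => ⟨h.1, h.2⟩⟩

theorem of_conc {n : ℕ} {real : Bool} {r : ℤ → ℕ} {q : ℤ → Finset ℤ → ℝ} {L : ℤ → ℂ → ℂ}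
    {A : ℤ → ℝ} (h : MQV.ConcN n real r q L A) : Assertions n real r q L A := by
  obtain ⟨h1, h2, h3, h4, h5, h6, h7⟩ := h
  simp only [MQV.Lower, MQV.Upper, MQV.SubM, MQV.Bdd, coset_iff] at h1 h2 h3 h4 h5 h6 h7
  exact ⟨h1, h2, h3, h4, h5, h6, h7⟩

theorem result :
    (∀ a2 a4 a6 : ℤ, (gcurve a2 a4 a6 1).Δ ≠ 0 →
      ∀ (real : Bool) (γ : ℂ → ℂ) (L : ℤ → ℂ → ℂ) (A : ℤ → ℝ) (c : ℤ → ℂ),
      TwistFamily real γ L A c → Conductors A →
      Assertions 4 real (rk a2 a4 a6) (fun d C => ‖quotK a2 a4 a6 L c d C‖) L A) ∧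
    (∀ (L : ℤ → ℂ → ℂ) (c : ℤ → ℂ),
      (∀ d ∈ Twists true, Differentiable ℂ (L d) ∧ EulerProduct (gcurve 0 (-1) 0 d) (L d)) →
      (∀ d ∈ Twists true, c d ≠ 0) →
      Assertions 2 true (rk 0 (-1) 0) (fun d C => ‖quotK 0 (-1) 0 L c d C‖) L
        (fun d => (d : ℝ))) ∧
    ∀ d ∈ Twists true, ∃ L : ℂ → ℂ, Differentiable ℂ L ∧ EulerProduct (gcurve 0 (-1) 0 d) L := by
  refine ⟨?_, ?_, ?_⟩
  · intro a2 a4 a6 hΔ real γ L A c hF hA
    exact of_conc (MQV.concN_curve hΔ (γ := γ) (L := L) (A := A) (c := c)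
      ⟨hF.1, hF.2, hF.3, hF.4, hF.5, hF.6, hF.7⟩ hA)
  · intro L c hL hc
    exact of_conc (MQV.concN_congr L c hL hc)
  · intro d hd
    obtain ⟨L, h1, h2, -⟩ := MQV.fam_exists d hd
    rw [← MQV.gcurve_congr] at h2
    exact ⟨L, h1, h2⟩

end Pool.Agent.Results.MP_92892c_nt.ApproximateFormula
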