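import Pool.Agent.W_92892c_h19n.Stmt
import Pool.Agent.W_92892c_h19n.Brg2
import Pool.Agent.W_92892c_h19n.Bd2

/-!
The Birch and Swinnerton-Dyer formula, together with the Riemann hypothesis for `L(E,s)`, as an
explicit inequality between point counts, for every `X` (a criterion of the type of Nicolas, Robin
and Lagarias), and as a statement on rational points and points modulo primes alone.

`W` is an integral Weierstrass equation of an elliptic curve over `ℚ`, `L` its `L`-function (entire,
Euler product, polynomial growth, functional equation with `A = √N/(2π)`), and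
`F(X) = Σ_{q ≤ X} w_q (1 - log q/log X)^2 + r (log log X + γ - 3/2) + 2 (log A - γ)/log X
  + π²/(6 (log X)²)`, where `q = p^m` runs over the prime powers and
`w_q = (α_p^m + β_p^m)/(m q)`.

For `lam > 0` the following are equivalent:
* `L` has no zero with `Re s > 1` and `L(s)/(s-1)^r → lam` as `s → 1`;
* `0 < F(X) - log lam < 4 A L(2)/(lam (log X)^2)` for all `X ≥ 2`;
* `F` is strictly decreasing on `(1,∞)` and tends to `log lam`;
* `F(n) → log lam` along the integers;
* `|∫_1^X e(x) dx/x - (log A - γ)| < 4 A L(2)/(lam log X)` for all `X ≥ 2`, where `e(x)` is the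
  logarithm of the original Birch and Swinnerton-Dyer quotient (over prime powers);
* the logarithmic mean of `e` tends to `0`;
* the mean square of `e(x) log x` is bounded.
There is a one-sided version.  `L` has no zero with `Re s > 1` and order `r` at `1` if and only if
`F` is decreasing and bounded below, if and only if `F(n)` is bounded.

Version without rank, regulator, torsion and `L`-function: let `h` be a positive definite quadratic
form on `E(ℚ) = ℤ^r × T` (the canonical height), `Θ(s) = Σ_{P ∈ E(ℚ)} exp(-π s h(P))` and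
`G(X) = Θ(1/(κ log X))² exp(Σ_{q ≤ X} w_q (1 - log q/log X)^2 + 2 (log A - γ)/log X + π²/(6 (log X)²))`,
`κ = e^(γ - 3/2)`.  Then `L` has no zero with `Re s > 1` and its order at `1` is the rank `r`
if and only if `G` is decreasing and bounded away from `0`, if and only if `G(n)` is bounded and
bounded away from `0`; and the leading coefficient is `V det(h)/(#T)²` if and only if in addition
`G → V` (`V` = real period times Tamagawa numbers times order of the Tate-Shafarevich group).
-/

namespace Pool.Agent.Results.MP_92892c_nt.ExplicitInequality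

open Set Filter Topology PPM BSDX

theorem result :
    (∀ W : WeierstrassCurve ℤ, W.Δ ≠ 0 → ∀ L : ℂ → ℂ, Differentiable ℂ L →
      EulerProduct W L → PolyGrowth L → ∀ (A : ℝ) (ε : ℂ), 0 < A → FunEq L A ε → ∀ r : ℕ,
      (∀ lam : ℝ, 0 < lam →
        List.TFAE [
          NoZeros L ∧ LeadingTerm L r lam,
          ∀ X : ℝ, 2 ≤ X → 0 < bsdFun W A r X - Real.log lam ∧
            bsdFun W A r X - Real.log lam < 4 * A * (L 2).re / (lam * Real.log X ^ 2),
          StrictAntiOn (bsdFun W A r) (Ioi 1) ∧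
            Tendsto (bsdFun W A r) atTop (𝓝 (Real.log lam)),
          Tendsto (fun n : ℕ => bsdFun W A r n) atTop (𝓝 (Real.log lam)),
          ∀ X : ℝ, 2 ≤ X → |(∫ x in (1 : ℝ)..X, bsdError W r lam x / x) -
            (Real.log A - Real.eulerMascheroniConstant)| < 4 * A * (L 2).re / (lam * Real.log X),
          Tendsto (logMean W r lam) atTop (𝓝 0),
          ∃ B : ℝ, ∀ X : ℝ, 2 ≤ X →
            ∫ x in (2 : ℝ)..X, (Real.log x * bsdError W r lam x) ^ 2 / x ≤ B * Real.log X] ∧
        ((NoZeros L ∧ ∃ (n : ℕ) (l : ℝ), 0 < l ∧ LeadingTerm L n l ∧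
            (n < r ∨ (n = r ∧ lam ≤ l))) ↔
          ∀ᶠ n : ℕ in atTop, Real.log lam ≤ bsdFun W A r n)) ∧
      List.TFAE [
        NoZeros L ∧ ∃ l : ℝ, 0 < l ∧ LeadingTerm L r l,
        AntitoneOn (bsdFun W A r) (Ioi 1) ∧ ∃ m : ℝ, ∀ X : ℝ, 1 < X → m ≤ bsdFun W A r X,
        ∃ B : ℝ, ∀ n : ℕ, 2 ≤ n → |bsdFun W A r n| ≤ B] ∧
      (∀ (T : Type) [AddCommGroup T] [Finite T] (e : RatPts W ≃+ (Fin r → ℤ) × T)
        (H : Matrix (Fin r) (Fin r) ℝ) (h : RatPts W → ℝ), H.PosDef →
        (∀ P, h P = dotProduct (fun i => ((e P).1 i : ℝ)) (H.mulVec fun i => ((e P).1 i : ℝ))) →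
        (∀ V : ℝ, 0 < V → List.TFAE [
          NoZeros L ∧ LeadingTerm L r (V * H.det / (Nat.card T : ℝ) ^ 2),
          StrictAntiOn (localGlobal W h A) (Ioi 1) ∧ Tendsto (localGlobal W h A) atTop (𝓝 V),
          (∀ X : ℝ, 1 < X → V < localGlobal W h A X) ∧
            Tendsto (fun n : ℕ => localGlobal W h A n) atTop (𝓝 V)]) ∧
        List.TFAE [
          NoZeros L ∧ ∃ l : ℝ, 0 < l ∧ LeadingTerm L r l,
          AntitoneOn (localGlobal W h A) (Ioi 1) ∧
            ∃ m : ℝ, 0 < m ∧ ∀ X : ℝ, 1 < X → m ≤ localGlobal W h A X,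
          ∃ m M : ℝ, 0 < m ∧ ∀ n : ℕ, 2 ≤ n →
            m ≤ localGlobal W h A n ∧ localGlobal W h A n ≤ M])) ∧
    (∀ k : ℕ, Squarefree k → ∀ c : ℤ, c = 1 ∨ c = -1 →
      ∃ L : ℂ → ℂ, Differentiable ℂ L ∧ EulerProduct (twist c k) L ∧ PolyGrowth L ∧
        ∃ ε : ℂ, FunEq L (Real.sqrt (cond c k) / (2 * Real.pi)) ε) :=
  ⟨fun W _ L hL hprod hgr A ε hA hFE r =>
    ⟨fun lam hlam => ⟨BSDN.all_tfae W L hL hprod hgr A ε hA hFE r lam hlam,
        BSDN.fin_one W L hL hprod hgr A ε hA hFE r lam hlam⟩,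
      BSDN.rank_tfae W L hL hprod hgr A ε hA hFE r,
      fun T _ _ e H h hH hh =>
        ⟨fun V hV => BSDN.fin_lg W L hL hprod hgr A ε hA hFE r T e H hH h hh V hV,
          BSDN.lg_rank_tfae W L hL hprod hgr A ε hA hFE r T e H hH h hh⟩⟩,
    fun k hk c hc => part4 k hk c hc⟩

end Pool.Agent.Results.MP_92892c_nt.ExplicitInequality
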