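import Pool.Agent.W_92892s_h88.Fin
import Pool.Agent.W_92892c_TF14.Uni
import Pool.Agent.W_92892c_TF14.Cong14

set_option autoImplicit false

/-!
# MP_92892c_nt: the leading-term equality for the products of `A` with known curves

`L` is a function analytic at `1`, for instance the `L`-function of an elliptic curve (or abelian
variety) `A` over `ℚ`; let `r = rank A(ℚ)` and let `c` be the algebraic constant
`Ω · Reg · #Sha · Tam / (#tors · #tors^)`.

## Powers of known curves of rank 0

The functions `B 0`, `B 1`, `B 2` are `L`-functions of elliptic curves over `ℚ` of conductors `N 0`, `N 1`,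
`N 2` and analytic rank `0` (`RankZero`).  Then

  `quot L B r c j e = 1`

is the equality of Q1, read literally (with the `(j r)`-th derivative), for the product of `A ^ j` and the
`(B i) ^ (e i)`, whose rank is `j r`, and whose constant is `c ^ j ∏ B_i(1)^(e i)` if the Birch and
Swinnerton-Dyer formula holds for the curves `B i`.

* Conditions 1 to 5 are equivalent: the Birch and Swinnerton-Dyer conjecture for `A` (order of vanishing
  `r`, because `c ≠ 0`, and leading coefficient `c`); the equality for all the products; the equality for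
  `A × B₀^k` for `r + 1` values of `k`; the equality for `A`, and a bound `o(k)`, along a sequence of `k`,
  for the quotients of `A × B₀^k`; the equality up to a factor which is subexponential in the dimension
  for the varieties `A^j × B₀^k`.
* The subexponential upper bound alone means: the order is at least `r`, and the `r`-th coefficient is at
  most `|c|`.
* If the quotients of the conductors are multiplicatively independent: rationality of the `3 r + 1` numbers
  `L^an/L^alg` of `A × B₀^k` (`k ≤ r`), `A × B₀^k × B₁`, `A × B₀^k × B₂` (`k < r`) means: the order is at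
  least `r`, and `L^an/L^alg` of `A` is rational; and together with the equality for `A` it is condition 1.
* The curves `y² = x³ - k² x`, `k = 1, 2, 3`, of conductors `32`, `64`, `288`, have the required
  properties.

## Two known curves of any rank

The functions `B n`, `n ∈ ℕ`, have order `m n` and leading coefficient `b n` at `1`, and functional
equations with one gamma factor and numbers `A n → ∞` (`Known`), for instance the `L`-functions of
elliptic curves of conductors `(2 π A n) ^ 2` for which the Birch and Swinnerton-Dyer conjecture is known.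
Then `pair L r c B m b i j = 1` is the equality of Q1, read literally, for the product of `A` with the
`i`-th and the `j`-th curve, whose rank is `r + m i + m j` (`i = j` is allowed).  Let `I` and `J` be finite sets
of indices such that `A` takes more than `r ^ 2` values on `I` and more than `(r + 1) ^ 2` values on `J`.

* The order of `L` is at least `r` if and only if `pair` does not depend on `j ∈ J`, for every `i ∈ I`, and
  if and only if it is `o(log (A n))`, for every `i ∈ I` and `j = n → ∞`.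
* The Birch and Swinnerton-Dyer conjecture for `A` means: the equality for `A` and all the products; the
  equality for `A` and at most `r` of the products with `i ∈ I` and `j ∈ J`; these depend on the functions
  `B n`, on `r`, `I` and `J`, and not on `L` and `c`.
* The curves `y² = x³ - d² x` for infinitely many squarefree `d > 0` have the required properties.

The number `c ≠ 0` is arbitrary: with `c = L^(r)(1)/r!` one gets conditions for the rank part alone.
-/

namespace Pool.Agent.Results.MP_92892c_nt.KnownFactors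

open Filter Topology PPM

/-- `B` is entire, has a functional equation with conductor `N`, and `B(1) ≠ 0`. -/
structure RankZero (N : ℕ) (B : ℂ → ℂ) : Prop where
  pos : 0 < N
  diff : Differentiable ℂ B
  fe : ∃ ε : ℂ, FunEq B (Real.sqrt N / (2 * Real.pi)) ε
  ne : B 1 ≠ 0

/-- The quotients `N 1 / N 0` and `N 2 / N 0` are multiplicatively independent. -/
def Independent (N : Fin 3 → ℕ) : Prop :=
  ∀ P Q : ℤ, ((N 1 : ℝ) / N 0) ^ P = ((N 2 : ℝ) / N 0) ^ Q → P = 0 ∧ Q = 0

/-- The leading-term quotient of the product of `A^j` and the `(B i)^(e i)`. -/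
noncomputable def quot (L : ℂ → ℂ) (B : Fin 3 → ℂ → ℂ) (r : ℕ) (c : ℂ) (j : ℕ) (e : Fin 3 → ℕ) : ℂ :=
  iteratedDeriv (j * r) (fun s => L s ^ j * ∏ i, B i s ^ e i) 1 / ((j * r).factorial : ℂ) /
    (c ^ j * ∏ i, B i 1 ^ e i)

/-- A rational number. -/
def IsRational (z : ℂ) : Prop := ∃ q : ℚ, z = q

/-- The order at `1` is at least `r`. -/
def OrderGe (L : ℂ → ℂ) (r : ℕ) : Prop := ∀ i < r, iteratedDeriv i L 1 = 0

/-- Functional equation near the point `1`: `Λ(1 - w) = ε Λ(1 + w)`, `Λ(s) = A^s γ(s) L(s)`. -/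
def FunEqNear (γ L : ℂ → ℂ) (A : ℝ) : Prop :=
  ∃ ε : ℂ, ∀ᶠ w in 𝓝 (0 : ℂ), (A : ℂ) ^ (1 - w) * γ (1 - w) * L (1 - w) =
    ε * ((A : ℂ) ^ (1 + w) * γ (1 + w) * L (1 + w))

/-- Known functions `B n`, analytic at `1`, of order `m n` and with leading coefficient `b n` at
`1`, with functional equations with one factor `γ` and with numbers `A n → ∞`. -/
structure Known (γ : ℂ → ℂ) (B : ℕ → ℂ → ℂ) (A : ℕ → ℝ) (m : ℕ → ℕ) (b : ℕ → ℂ) : Prop where
  gamma_an : AnalyticAt ℂ γ 1
  gamma_ne : γ 1 ≠ 0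
  an : ∀ n, AnalyticAt ℂ (B n) 1
  pos : ∀ n, 0 < A n
  fe : ∀ n, FunEqNear γ (B n) (A n)
  top : Tendsto A atTop atTop
  ord : ∀ n, OrderGe (B n) (m n)
  lead : ∀ n, iteratedDeriv (m n) (B n) 1 / ((m n).factorial : ℂ) = b n
  ne : ∀ n, b n ≠ 0

/-- The leading-term quotient of the product of `A` and the `i`-th and the `j`-th known curve. -/
noncomputable def pair (L : ℂ → ℂ) (r : ℕ) (c : ℂ) (B : ℕ → ℂ → ℂ) (m : ℕ → ℕ) (b : ℕ → ℂ)
    (i j : ℕ) : ℂ :=
  iteratedDeriv (r + m i + m j) (fun s => L s * B i s * B j s) 1 /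
    ((r + m i + m j).factorial : ℂ) / (c * b i * b j)

theorem result :
    (((∃ B : Fin 3 → ℂ → ℂ, ∀ i, EulerProduct (twist (-1) (i.val + 1)) (B i) ∧
        RankZero (![32, 64, 288] i) (B i)) ∧ Independent ![32, 64, 288]) ∧
    ∀ (N : Fin 3 → ℕ) (B : Fin 3 → ℂ → ℂ), (∀ i, RankZero (N i) (B i)) →
      ∀ L : ℂ → ℂ, AnalyticAt ℂ L 1 → ∀ (r : ℕ) (c : ℂ), c ≠ 0 →
        List.TFAE [
          OrderGe L r ∧ iteratedDeriv r L 1 / (r.factorial : ℂ) = c,
          ∀ (j : ℕ) (e : Fin 3 → ℕ), quot L B r c j e = 1,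
          ∃ S : Finset ℕ, r < S.card ∧ ∀ k ∈ S, quot L B r c 1 ![k, 0, 0] = 1,
          quot L B r c 1 ![0, 0, 0] = 1 ∧
            ∀ δ : ℝ, 0 < δ → ∃ᶠ k : ℕ in atTop, ‖quot L B r c 1 ![k, 0, 0]‖ ≤ δ * k,
          ∀ ε : ℝ, 0 < ε → ∀ᶠ p : ℕ × ℕ in cofinite, ∃ ρ : ℝ, quot L B r c p.1 ![p.2, 0, 0] = ρ ∧
            Real.exp (-(ε * (p.1 + p.2))) ≤ ρ ∧ ρ ≤ Real.exp (ε * (p.1 + p.2))] ∧
        ((OrderGe L r ∧ ‖iteratedDeriv r L 1 / (r.factorial : ℂ)‖ ≤ ‖c‖) ↔
          ∀ ε : ℝ, 0 < ε → ∀ᶠ p : ℕ × ℕ in cofinite,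
            ‖quot L B r c p.1 ![p.2, 0, 0]‖ ≤ Real.exp (ε * (p.1 + p.2))) ∧
        (Independent N →
          ((OrderGe L r ∧ IsRational (iteratedDeriv r L 1 / (r.factorial : ℂ) / c)) ↔
            (∀ k ≤ r, IsRational (quot L B r c 1 ![k, 0, 0])) ∧
              ∀ k < r, IsRational (quot L B r c 1 ![k, 1, 0]) ∧
                IsRational (quot L B r c 1 ![k, 0, 1])) ∧
          ((OrderGe L r ∧ iteratedDeriv r L 1 / (r.factorial : ℂ) = c) ↔
            quot L B r c 1 ![0, 0, 0] = 1 ∧ (∀ k ≤ r, IsRational (quot L B r c 1 ![k, 0, 0])) ∧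
              ∀ k < r, IsRational (quot L B r c 1 ![k, 1, 0]) ∧
                IsRational (quot L B r c 1 ![k, 0, 1])))) ∧
    (∀ d : ℕ → ℕ, Function.Injective d → (∀ n, Squarefree (d n)) → ∃ (B : ℕ → ℂ → ℂ) (A : ℕ → ℝ)
      (m : ℕ → ℕ) (b : ℕ → ℂ), (∀ n, EulerProduct (twist (-1) (d n)) (B n)) ∧
        Function.Injective A ∧ Known Complex.Gamma B A m b) ∧
    ∀ (γ : ℂ → ℂ) (B : ℕ → ℂ → ℂ) (A : ℕ → ℝ) (m : ℕ → ℕ) (b : ℕ → ℂ), Known γ B A m b →
      ∀ (r : ℕ) (I J : Finset ℕ), r ^ 2 < (I.image A).card → (r + 1) ^ 2 < (J.image A).card →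
        ∃ Q : Finset (ℕ × ℕ), Q ⊆ I ×ˢ J ∧ Q.card ≤ r ∧
          ∀ L : ℂ → ℂ, AnalyticAt ℂ L 1 → ∀ c : ℂ, c ≠ 0 →
            List.TFAE [
              OrderGe L r,
              ∀ i ∈ I, ∃ s : ℂ, ∀ j ∈ J, pair L r c B m b i j = s,
              ∀ i ∈ I, Tendsto (fun n => pair L r c B m b i n / (Real.log (A n) : ℂ)) atTop (𝓝 0)] ∧
            List.TFAE [
              OrderGe L r ∧ iteratedDeriv r L 1 / (r.factorial : ℂ) = c,
              iteratedDeriv r L 1 / (r.factorial : ℂ) = c ∧ ∀ i j, pair L r c B m b i j = 1,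
              iteratedDeriv r L 1 / (r.factorial : ℂ) = c ∧
                ∀ q ∈ Q, pair L r c B m b q.1 q.2 = 1] := by
  refine ⟨⟨⟨?_, ?_⟩, ?_⟩, ?_, ?_⟩
  · choose B hB using LAF.exists_known
    exact ⟨B, fun i => ⟨(hB i).1, (hB i).2.pos, (hB i).2.diff, (hB i).2.fe, (hB i).2.ne⟩⟩
  · intro P Q h
    have e0 : (((![32, 64, 288] : Fin 3 → ℕ) 0 : ℕ) : ℝ) = 32 := by norm_num
    have e1 : (((![32, 64, 288] : Fin 3 → ℕ) 1 : ℕ) : ℝ) = 64 := by norm_num
    have e2 : (((![32, 64, 288] : Fin 3 → ℕ) 2 : ℕ) : ℝ) = 288 := by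
      show ((288 : ℕ) : ℝ) = 288
      norm_num
    rw [e0, e1, e2] at h
    exact LAF.ind_known P Q h
  · intro N B hB L hL r c hc
    have hZ : ∀ i, LAF.Zer (N i) (B i) := fun i => ⟨(hB i).pos, (hB i).diff, (hB i).fe, (hB i).ne⟩
    have hq : quot L B r c = LAF.R L (fun i s => B i s / B i 1) r c := by
      funext j e
      exact LAF.quot_eq L B (fun i => (hZ i).ne) r c j e
    have hg : ∀ i, AnalyticAt ℂ ((fun i s => B i s / B i 1) i) 1 := fun i =>
      ((hZ i).diff.analyticAt 1).div analyticAt_const (hZ i).ne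
    have h1 : ∀ i, (fun i s => B i s / B i 1) i 1 = 1 := fun i => div_self (hZ i).ne
    have hd : deriv ((fun i s => B i s / B i 1) 0) 1 ≠ 0 := (hZ 0).deriv_ne
    rw [hq]
    refine ⟨LAF.abs_exact L _ hL hg h1 hd r c hc, LAF.abs_upper L _ hL hg h1 hd r c hc, fun hN => ?_⟩
    have hind := LAF.x_ind N B hZ hN
    exact ⟨LAF.abs_rat L _ hL hg h1 hd hind r c hc, LAF.abs_exact_rat L _ hL hg h1 hd hind r c hc⟩
  · intro d hd hsq
    obtain ⟨B, A, m, b, h1, h2, h3⟩ := TF14.cong14 d hd hsq
    exact ⟨B, A, m, b, h1, h2, ⟨h3.gamma_an, h3.gamma_ne, h3.an, h3.pos, h3.fe, h3.top, h3.ord,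
      h3.lead, h3.ne⟩⟩
  · intro γ B A m b hK r I J hI hJ
    have h : TF14.Fam γ B A m b := ⟨hK.gamma_an, hK.gamma_ne, hK.an, hK.pos, hK.fe, hK.top,
      hK.ord, hK.lead, hK.ne⟩
    obtain ⟨Q, hQ1, hQ2, hQ3⟩ := TF14.tf_uni h r hI hJ
    refine ⟨Q, hQ1, hQ2, fun L hL c hc => ?_⟩
    have hpair : ∀ i j, pair L r c B m b i j = TF14.TP L r B m b i j / c := by
      intro i j
      unfold pair TF14.TP
      rw [div_div, div_div, div_div, mul_comm (b i * b j) c, mul_assoc c]
    have h12 : OrderGe L r ↔ ∀ i ∈ I, ∃ s : ℂ, ∀ j ∈ J, pair L r c B m b i j = s := by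
      refine (TF14.tf_fin h hL r hI hJ).trans ?_
      constructor
      · intro h1 i hi
        obtain ⟨s, hs⟩ := h1 i hi
        exact ⟨s / c, fun j hj => by rw [hpair, hs j hj]⟩
      · intro h1 i hi
        obtain ⟨s, hs⟩ := h1 i hi
        refine ⟨s * c, fun j hj => ?_⟩
        rw [← hs j hj, hpair, div_mul_cancel₀ _ hc]
    have h13 : OrderGe L r ↔ ∀ i ∈ I,
        Tendsto (fun n => pair L r c B m b i n / (Real.log (A n) : ℂ)) atTop (𝓝 0) := by
      refine (TF14.tf_asy h hL r hI).trans ?_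
      constructor
      · intro h1 i hi
        have h2 := (h1 i hi).div_const c
        rw [zero_div] at h2
        refine h2.congr fun n => ?_
        rw [hpair, div_right_comm]
      · intro h1 i hi
        have h2 := (h1 i hi).mul_const c
        rw [zero_mul] at h2
        refine h2.congr fun n => ?_
        rw [hpair, div_right_comm, div_mul_cancel₀ _ hc]
    refine ⟨?_, ?_⟩
    · tfae_have 1 ↔ 2 := h12
      tfae_have 1 ↔ 3 := h13
      tfae_finish
    · tfae_have 1 → 2 := by
        rintro ⟨h1, h2⟩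
        refine ⟨h2, fun i j => ?_⟩
        rw [hpair, TF14.TP_const h hL h1, h2, div_self hc]
      tfae_have 2 → 3 := fun h1 => ⟨h1.1, fun q _ => h1.2 _ _⟩
      tfae_have 3 → 1 := by
        rintro ⟨h1, h2⟩
        refine ⟨(hQ3 L hL).2 fun q hq => ?_, h1⟩
        have h3 := h2 q hq
        rw [hpair, div_eq_one_iff_eq hc] at h3
        rw [h3, h1]
      tfae_finish

end Pool.Agent.Results.MP_92892c_nt.KnownFactors
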