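import Pool.Agent.W_92892c_h19f.FinT19
import Pool.Agent.W_92892c_x32.Gen32
import Pool.Agent.W_92892c_x32.Exp85

/-!
The leading-term formula of Birch and Swinnerton-Dyer, read literally, for the quadratic twists `E_d` of
an elliptic curve over `ℚ`, `d` in a coset `T` of a group of square classes: the formula over `ℚ`, over
the quadratic and over the biquadratic fields implies the full conjecture (order of vanishing and
leading coefficient) for these twists.  `T` may be generated by an arbitrary infinite set of primes, and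
for one twist an arbitrary finite set of sufficiently many primes is enough.
-/

open Filter Topology

namespace Pool.Agent.Results.MP_92892c_nt.Multiquadratic

/-- Number of points over `F_p` of the projective Weierstrass cubic `W` mod `p`. -/
noncomputable def nPoints (W : WeierstrassCurve ℤ) (p : ℕ) : ℕ :=
  1 + Nat.card {P : ZMod p × ZMod p //
    (W.map (Int.castRingHom (ZMod p))).toAffine.Equation P.1 P.2}

/-- `a_p = p + 1 - #W(F_p)`. -/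
noncomputable def aCoeff (W : WeierstrassCurve ℤ) (p : ℕ) : ℤ := (p : ℤ) + 1 - nPoints W p

/-- `p` if `p` does not divide the discriminant of `W`, else `0`. -/
noncomputable def eCoeff (W : WeierstrassCurve ℤ) (p : ℕ) : ℤ :=
  if (p : ℤ) ∣ W.Δ then 0 else (p : ℤ)

/-- The Euler polynomial `1 - a_p p^(-s) + e_p p^(-2s)`. -/
noncomputable def eulerPoly (W : WeierstrassCurve ℤ) (p : ℕ) (s : ℂ) : ℂ :=
  1 - (aCoeff W p : ℂ) * (p : ℂ) ^ (-s) + (eCoeff W p : ℂ) * (p : ℂ) ^ (-2 * s)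

/-- `L` is the Euler product of `W` for `Re s > 3/2`. -/
def EulerProduct (W : WeierstrassCurve ℤ) (L : ℂ → ℂ) : Prop :=
  ∀ s : ℂ, 3 / 2 < s.re → Tendsto (fun N : ℕ =>
    ∏ p ∈ (Finset.range N).filter Nat.Prime, (eulerPoly W p s)⁻¹) atTop (𝓝 (L s))

/-- A set of squarefree integers which contains, with `x, y, z`, the squarefree part of `x y z`: a coset
of a group of square classes. -/
structure TwistSet (T : Set ℤ) : Prop where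
  sqfree : ∀ d ∈ T, Squarefree d
  closed : ∀ x ∈ T, ∀ y ∈ T, ∀ z ∈ T, ∃ w ∈ T, IsSquare (x * y * z * w)

/-- For some `t ∈ T` and some infinite set `P` of primes: `t m ∈ T` and `A_(t m) = A_0 m` for the
products `m` of distinct primes of `P`. -/
def Conductors (T : Set ℤ) (A : ℤ → ℝ) : Prop :=
  ∃ t ∈ T, ∃ P : Set ℕ, P.Infinite ∧ (∀ p ∈ P, p.Prime) ∧ ∃ A0 : ℝ, 0 < A0 ∧
    ∀ m : ℕ, Squarefree m → (∀ p : ℕ, p.Prime → p ∣ m → p ∈ P) → t * m ∈ T ∧ A (t * m) = A0 * m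

/-- The twist `E_d : y² = x³ + a₂ d x² + a₄ d² x + a₆ d³` of `E : y² = x³ + a₂ x² + a₄ x + a₆`. -/
def gcurve (a2 a4 a6 d : ℤ) : WeierstrassCurve ℤ := ⟨0, d * a2, 0, d ^ 2 * a4, d ^ 3 * a6⟩

/-- The group of points of `W` with coordinates in the field `K`. -/
abbrev Points (W : WeierstrassCurve ℤ) (K : Type) [Field K] : Type :=
  (W.map (Int.castRingHom K)).toAffine.Point

/-- The rank of `E_d(ℚ)`. -/
noncomputable def rk (a2 a4 a6 d : ℤ) : ℕ := Module.finrank ℤ (Points (gcurve a2 a4 a6 d) ℚ)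

/-- `C` is a coset of a finite group of square classes of integers. -/
structure IsCoset (C : Finset ℤ) : Prop where
  nonempty : C.Nonempty
  closed : ∀ x ∈ C, ∀ y ∈ C, ∀ z ∈ C, ∃ w ∈ C, IsSquare (x * y * z * w)

/-- The multiquadratic field generated by the complex numbers `x` with `x² = d e`, `e ∈ C`. -/
noncomputable def mqField (d : ℤ) (C : Finset ℤ) : IntermediateField ℚ ℂ :=
  IntermediateField.adjoin ℚ {x : ℂ | ∃ e ∈ C, x ^ 2 = (d * e : ℤ)}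

/-- The rank of `E_d` over the field `K = ℚ(√(d e) : e ∈ C)`. -/
noncomputable def rkK (a2 a4 a6 d : ℤ) (C : Finset ℤ) : ℕ :=
  Module.finrank ℤ (Points (gcurve a2 a4 a6 d) (mqField d C))

/-- The quotient of the two sides of the leading-term formula for `E_d` over
`K = ℚ(√(d e) : e ∈ C)`: the Taylor coefficient at `1`, of order the rank of `E_d(K)`, of
`∏_{e ∈ C} L_e` (this is `L(E_d/K, s)`), divided by `∏ c_e`. -/
noncomputable def quotK (a2 a4 a6 : ℤ) (L : ℤ → ℂ → ℂ) (c : ℤ → ℂ) (d : ℤ) (C : Finset ℤ) : ℂ :=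
  iteratedDeriv (rkK a2 a4 a6 d C) (fun s => ∏ e ∈ C, L e s) 1 /
    ((rkK a2 a4 a6 d C).factorial : ℂ) / ∏ e ∈ C, c e

/-- The equality of Q1, read literally: `L^(r)(1)/r! = c`. -/
def Q1 (L : ℂ → ℂ) (r : ℕ) (c : ℂ) : Prop := iteratedDeriv r L 1 / (r.factorial : ℂ) = c

/-- Order of vanishing at least `r` at `1`, and `r`-th Taylor coefficient `c` (so that the order is `r`
if `c ≠ 0`). -/
def BSD (L : ℂ → ℂ) (r : ℕ) (c : ℂ) : Prop := (∀ i < r, iteratedDeriv i L 1 = 0) ∧ Q1 L r c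

/-- Functional equation near the point `1`: `Λ(1 - w) = ε Λ(1 + w)`, `Λ(s) = A^s γ(s) L(s)`. -/
def FunEqNear (γ L : ℂ → ℂ) (A : ℝ) : Prop :=
  ∃ ε : ℂ, ∀ᶠ w in 𝓝 (0 : ℂ), (A : ℂ) ^ (1 - w) * γ (1 - w) * L (1 - w) =
    ε * ((A : ℂ) ^ (1 + w) * γ (1 + w) * L (1 + w))

/-- Functions `L_d`, `d ∈ T`, analytic at `1`, with functional equations with one factor `γ` and with
numbers `A_d → ∞`, and constants `c_d ≠ 0`. -/
structure TwistFamily (T : Set ℤ) (γ : ℂ → ℂ) (L : ℤ → ℂ → ℂ) (A : ℤ → ℝ) (c : ℤ → ℂ) : Prop where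
  gamma_an : AnalyticAt ℂ γ 1
  gamma_ne : γ 1 ≠ 0
  an : ∀ d ∈ T, AnalyticAt ℂ (L d) 1
  pos : ∀ d ∈ T, 0 < A d
  fe : ∀ d ∈ T, FunEqNear γ (L d) (A d)
  fin : ∀ B : ℝ, {d ∈ T | A d ≤ B}.Finite
  ne : ∀ d ∈ T, c d ≠ 0

/-- The integers `m` and `d₀ m`, where `m` is a product of distinct elements of `P`. -/
def Span (d0 : ℤ) (P : Finset ℕ) : Set ℤ :=
  {d | ∃ I : Finset ℕ, I ⊆ P ∧ (d = ((∏ p ∈ I, p : ℕ) : ℤ) ∨ d = d0 * ((∏ p ∈ I, p : ℕ) : ℤ))}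

/-- The numbers `A_m` and `A_(d₀ m)` are `A_1 m` and `A_(d₀) m`, where `m` is a product of distinct
elements of `P`. -/
def LinearOn (A : ℤ → ℝ) (d0 : ℤ) (P : Finset ℕ) : Prop :=
  ∀ I : Finset ℕ, I ⊆ P → A ((∏ p ∈ I, p : ℕ) : ℤ) = A 1 * ((∏ p ∈ I, p : ℕ) : ℝ) ∧
    A (d0 * ((∏ p ∈ I, p : ℕ) : ℤ)) = A d0 * ((∏ p ∈ I, p : ℕ) : ℝ)

theorem coset_iff (C : Finset ℤ) : MQV.IsCoset C ↔ IsCoset C :=
  ⟨fun h => ⟨h.1, h.2⟩, fun h => ⟨h.1, h.2⟩⟩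

theorem result :
    (∀ a2 a4 a6 : ℤ, (gcurve a2 a4 a6 1).Δ ≠ 0 →
      ∀ (T : Set ℤ) (γ : ℂ → ℂ) (L : ℤ → ℂ → ℂ) (A : ℤ → ℝ) (c : ℤ → ℂ),
      TwistSet T → TwistFamily T γ L A c → Conductors T A → List.TFAE [
        ∀ d ∈ T, BSD (L d) (rk a2 a4 a6 d) (c d),
        ∀ C : Finset ℤ, ↑C ⊆ T → IsCoset C → ∀ d ∈ C, quotK a2 a4 a6 L c d C = 1,
        ∀ C : Finset ℤ, ↑C ⊆ T → IsCoset C → C.card ≤ 4 → ∀ d ∈ C,
          quotK a2 a4 a6 L c d C = 1]) ∧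
    (∀ a2 a4 a6 : ℤ, (gcurve a2 a4 a6 1).Δ ≠ 0 → ∀ t : ℕ, ∃ n : ℕ,
      ∀ (T : Set ℤ) (γ : ℂ → ℂ) (L : ℤ → ℂ → ℂ) (A : ℤ → ℝ) (c : ℤ → ℂ),
      TwistSet T → TwistFamily T γ L A c → 1 ∈ T →
      ∀ d0 ∈ T, d0.natAbs.primeFactors.card ≤ t →
      ∀ P : Finset ℕ, n ≤ P.card → (∀ p ∈ P, p.Prime ∧ ¬ (p : ℤ) ∣ d0 ∧ (p : ℤ) ∈ T) →
      LinearOn A d0 P →
      ∀ B : Finset ℤ, (∀ b ∈ B, b ∈ T ∧ rk a2 a4 a6 b = 0) → n ≤ (B.image A).card →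
      (∀ C : Finset ℤ, ↑C ⊆ T → IsCoset C → C.card ≤ 4 → ∀ d ∈ C,
        quotK a2 a4 a6 L c d C = 1) →
      BSD (L d0) (rk a2 a4 a6 d0) (c d0)) ∧
    (∀ t : ℕ, ∃ n : ℕ, ∀ d0 : ℤ, Squarefree d0 → 0 < d0 → d0.natAbs.primeFactors.card ≤ t →
      ∀ P : Finset ℕ, n ≤ P.card → (∀ p ∈ P, p.Prime ∧ p % 8 = 3 ∧ ¬ (p : ℤ) ∣ d0) →
      ∀ (L : ℤ → ℂ → ℂ) (c : ℤ → ℂ),
      (∀ d ∈ Span d0 P, Differentiable ℂ (L d) ∧ EulerProduct (gcurve 0 (-1) 0 d) (L d)) →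
      (∀ d ∈ Span d0 P, c d ≠ 0) →
      (∀ C : Finset ℤ, ↑C ⊆ Span d0 P → IsCoset C → C.card ≤ 4 → ∀ d ∈ C,
        quotK 0 (-1) 0 L c d C = 1) →
      BSD (L d0) (rk 0 (-1) 0 d0) (c d0)) ∧
    ∀ d : ℤ, Squarefree d → 0 < d →
      ∃ L : ℂ → ℂ, Differentiable ℂ L ∧ EulerProduct (gcurve 0 (-1) 0 d) L := by
  refine ⟨?_, ?_, ?_, ?_⟩
  · intro a2 a4 a6 hΔ T γ L A c hT hF hcond
    have h := MQF.tfae_T (a2 := a2) (a4 := a4) (a6 := a6) hΔ ⟨⟨hT.1, hT.2⟩, hcond⟩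
      (γ := γ) (L := L) (c := c) ⟨hF.1, hF.2, hF.3, hF.4, hF.5, hF.6, hF.7⟩
    simp only [coset_iff] at h
    exact h
  · intro a2 a4 a6 hΔ t
    obtain ⟨n, hn⟩ := W92892cX32.explicit_gen (a2 := a2) (a4 := a4) (a6 := a6) hΔ t
    refine ⟨n, ?_⟩
    intro T γ L A c hT hF h1 d0 hd0 ht P hP hPp hA B hB hBn hq
    refine hn T γ L A c ⟨hT.1, h1, ?_⟩ ⟨hF.1, hF.2, hF.3, hF.4, hF.5, hF.6, hF.7⟩ d0 hd0 ht P hP
      hPp hA B hB hBn ?_
    · intro x hx y hy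
      obtain ⟨w, hw, h2⟩ := hT.closed x hx y hy 1 h1
      rw [mul_one] at h2
      exact ⟨w, hw, h2⟩
    · intro C hC hC' h4 d hd
      exact hq C hC ((coset_iff C).1 hC') h4 d hd
  · intro t
    obtain ⟨n, hn⟩ := MQV.explicit t
    refine ⟨n, ?_⟩
    intro d0 hsq hpos ht P hP hPp L c hL hc hq
    refine hn d0 ⟨hsq, fun _ => hpos⟩ ht P hP hPp L c hL hc ?_
    intro C hC hC' h4 d hd
    exact hq C hC ((coset_iff C).1 hC') h4 d hd
  · intro d hd hd0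
    obtain ⟨L, h1, h2, -⟩ := MQV.fam_exists d ⟨hd, fun _ => hd0⟩
    rw [← MQV.gcurve_congr] at h2
    exact ⟨L, h1, h2⟩

end Pool.Agent.Results.MP_92892c_nt.Multiquadratic
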